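import Mathlib

set_option autoImplicit false

namespace Pool.Agent.Results.MP_924496_co.Never

open Finset

structure Cover {V : Type} (G : SimpleGraph V) (m : ℕ) where
  H : SimpleGraph (V × Fin m)
  clique : ∀ v i j, i ≠ j → H.Adj (v, i) (v, j)
  matching : ∀ u v i j j', u ≠ v → H.Adj (u, i) (v, j) → H.Adj (u, i) (v, j') → j = j'
  edges : ∀ u v i j, u ≠ v → H.Adj (u, i) (v, j) → G.Adj u v

def colorings {V : Type} [Fintype V] {G : SimpleGraph V} {m : ℕ} (C : Cover G m) :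
    Set (Finset (V × Fin m)) := {S | C.H.IsIndepSet (S : Set (V × Fin m)) ∧ S.card = Fintype.card V}

noncomputable def chiDP {V : Type} [Fintype V] (G : SimpleGraph V) : ℕ :=
  sInf {m | ∀ C : Cover G m, (colorings C).Nonempty}

noncomputable def PDP {V : Type} [Fintype V] (G : SimpleGraph V) (m : ℕ) : ℕ :=
  sInf {p | ∃ C : Cover G m, (colorings C).ncard = p}

noncomputable def f {V : Type} [Fintype V] (G : SimpleGraph V) (k : ℕ) : ℕ :=
  sInf {t | chiDP (G □ completeBipartiteGraph (Fin k) (Fin t)) = chiDP G + k}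

section
variable {V : Type} [Fintype V] {G : SimpleGraph V}

def good {m : ℕ} (C : Cover G m) : Set (V → Fin m) :=
  {c | ∀ u v, u ≠ v → ¬ C.H.Adj (u, c u) (v, c v)}

open Classical in
lemma col_eq {m : ℕ} (C : Cover G m) :
    colorings C = (fun c : V → Fin m => univ.image fun v => (v, c v)) '' good C := by
  ext S
  constructor
  · rintro ⟨h1, h2⟩
    have hinj : Set.InjOn Prod.fst (S : Set (V × Fin m)) := by
      rintro ⟨u, i⟩ hu ⟨v, j⟩ hv (rfl : u = v)
      by_contra h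
      exact h1 hu hv h (C.clique u i j fun e => h (by rw [e]))
    have hs : S.image Prod.fst = univ :=
      eq_univ_of_card _ (by rw [card_image_of_injOn hinj, h2])
    have : ∀ v, ∃ i, (v, i) ∈ S := fun v => by
      obtain ⟨⟨u, i⟩, h, rfl⟩ := mem_image.mp (hs ▸ mem_univ v)
      exact ⟨i, h⟩
    choose c hc using this
    refine ⟨c, fun u v h => h1 (hc u) (hc v) fun e => h (congrArg Prod.fst e), ?_⟩
    ext ⟨v, i⟩
    simp only [mem_image, mem_univ, true_and]
    exact ⟨fun ⟨u, e⟩ => e ▸ hc u, fun h => ⟨v, hinj (hc v) h rfl⟩⟩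
  · rintro ⟨c, hc, rfl⟩
    refine ⟨?_, by rw [card_image_of_injective _ fun u v e => congrArg Prod.fst e]; rfl⟩
    intro x hx y hy hxy
    obtain ⟨u, -, rfl⟩ := mem_image.mp hx
    obtain ⟨v, -, rfl⟩ := mem_image.mp hy
    exact hc u v fun e => hxy (by rw [e])

lemma col_ncard {m : ℕ} (C : Cover G m) : (colorings C).ncard = (good C).ncard := by
  classical
  rw [col_eq, Set.ncard_image_of_injective]
  intro c d h
  funext v
  have : (v, c v) ∈ univ.image fun v => (v, d v) := by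
    have h' : (univ.image fun v => (v, c v)) = univ.image fun v => (v, d v) := by convert h
    rw [← h']; exact mem_image_of_mem _ (mem_univ v)
  obtain ⟨u, -, e⟩ := mem_image.mp this
  obtain ⟨rfl, e⟩ := Prod.mk.inj e
  exact e.symm

def Col (G : SimpleGraph V) (m : ℕ) : Prop := ∀ C : Cover G m, (good C).Nonempty

lemma chi_eq : chiDP G = sInf {m | Col G m} := by
  simp only [chiDP, Col, col_eq, Set.image_nonempty]

omit [Fintype V] in
lemma pull {W : Type} {G' : SimpleGraph W} {n m : ℕ} (h : Col G n) (C : Cover G' m) (φ : V → W)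
    (hφ : Function.Injective φ) (ha : ∀ u v, G'.Adj (φ u) (φ v) → G.Adj u v)
    (A : V → Finset (Fin m)) (hA : ∀ v, n ≤ (A v).card) : ∃ c : V → Fin m, (∀ v, c v ∈ A v) ∧
      ∀ u v, u ≠ v → ¬ C.H.Adj (φ u, c u) (φ v, c v) := by
  let e := fun v => (A v).orderEmbOfCardLe (hA v)
  obtain ⟨c, hc⟩ := h ⟨C.H.comap fun x => (φ x.1, e x.1 x.2),
    fun v i j hij => C.clique _ _ _ fun h => hij ((e v).injective h),
    fun u v i j j' huv h1 h2 => (e v).injective (C.matching _ _ _ _ _ (hφ.ne huv) h1 h2),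
    fun u v i j huv h1 => ha _ _ (C.edges _ _ _ _ (hφ.ne huv) h1)⟩
  exact ⟨fun v => e v (c v), fun v => orderEmbOfCardLe_mem _ _ _, hc⟩

omit [Fintype V] in
lemma Col.mono {n m : ℕ} (h : Col G n) (hn : n ≤ m) : Col G m := fun C =>
  let ⟨c, _, hc⟩ := pull h C id Function.injective_id (fun _ _ h => h) (fun _ => univ)
    (by simpa using fun _ => hn)
  ⟨c, hc⟩

omit [Fintype V] in
open Classical in
lemma free {m : ℕ} {ι : Type} (C : Cover G m) (v : V) (s : Finset ι) (p : ι → V × Fin m)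
    (hp : ∀ x ∈ s, (p x).1 ≠ v) :
    ∃ A : Finset (Fin m), m - s.card ≤ A.card ∧ ∀ j ∈ A, ∀ x ∈ s, ¬ C.H.Adj (p x) (v, j) := by
  refine ⟨univ.filter fun j => ∀ x ∈ s, ¬ C.H.Adj (p x) (v, j), ?_, fun j hj => (mem_filter.mp hj).2⟩
  have h1 := card_filter_add_card_filter_not (s := (univ : Finset (Fin m)))
    fun j => ∀ x ∈ s, ¬ C.H.Adj (p x) (v, j)
  have h2 : (univ.filter fun j => ¬ ∀ x ∈ s, ¬ C.H.Adj (p x) (v, j)).card ≤ s.card := by
    refine card_le_card_of_forall_subsingleton (fun j x => C.H.Adj (p x) (v, j)) ?_ ?_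
    · intro j hj
      simpa using (mem_filter.mp hj).2
    · intro x hx j hj j' hj'
      exact C.matching _ _ _ _ _ (hp x hx) hj.2 hj'.2
  simp only [card_univ, Fintype.card_fin] at h1
  omega

lemma col_card [Nonempty V] : Col G (Fintype.card V) := by
  classical
  intro C
  have : ∀ s : Finset V, ∃ c : V → Fin (Fintype.card V), ∀ u ∈ s, ∀ v ∈ s, u ≠ v →
      ¬ C.H.Adj (u, c u) (v, c v) := by
    intro s
    induction s using Finset.induction_on with
    | empty => exact ⟨fun _ => ⟨0, Fintype.card_pos⟩, by simp⟩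
    | insert a s ha ih =>
      obtain ⟨c, hc⟩ := ih
      obtain ⟨A, h1, hA⟩ := free C a s (fun u => (u, c u)) fun x hx e => ha (e ▸ hx)
      have h2 : s.card < Fintype.card V := card_lt_univ_of_notMem ha
      obtain ⟨j, hj⟩ := card_pos.mp (lt_of_lt_of_le (by omega) h1)
      have hj := hA j hj
      have hu : ∀ u ∈ s, Function.update c a j u = c u := fun u hu =>
        Function.update_of_ne (fun e => ha (by rw [← e]; exact hu)) _ _
      refine ⟨Function.update c a j, fun u hu' v hv' huv => ?_⟩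
      rcases mem_insert.mp hu' with rfl | h3 <;> rcases mem_insert.mp hv' with rfl | h4
      · exact absurd rfl huv
      · rw [Function.update_self, hu v h4]; exact fun h => hj v h4 h.symm
      · rw [Function.update_self, hu u h3]; exact hj u h3
      · rw [hu u h3, hu v h4]; exact hc u h3 v h4 huv
  obtain ⟨c, hc⟩ := this univ
  exact ⟨c, fun u v => hc u (mem_univ _) v (mem_univ _)⟩

def mk {m : ℕ} (R : V → Fin m → V → Fin m → Prop) (h1 : ∀ u i v j, R u i v j → R v j u i)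
    (h2 : ∀ u i v j j', R u i v j → R u i v j' → j = j') (h3 : ∀ u i v j, R u i v j → G.Adj u v) :
    Cover G m where
  H := ⟨fun x y => (x.1 = y.1 ∧ x.2 ≠ y.2) ∨ R x.1 x.2 y.1 y.2,
    ⟨fun _ _ h => h.imp (fun h => ⟨h.1.symm, h.2.symm⟩) (h1 _ _ _ _)⟩,
    ⟨fun _ h => h.elim (fun h => h.2 rfl) fun h => (h3 _ _ _ _ h).ne rfl⟩⟩
  clique _ _ _ h := Or.inl ⟨rfl, h⟩
  matching _ _ _ _ _ h a b := h2 _ _ _ _ _ (a.resolve_left fun e => h e.1)
    (b.resolve_left fun e => h e.1)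
  edges _ _ _ _ h a := h3 _ _ _ _ (a.resolve_left fun e => h e.1)

omit [Fintype V] in
lemma upper {n : ℕ} (t : ℕ) (h : Col G n) :
    Col (G □ completeBipartiteGraph (Fin 2) (Fin t)) (n + 2) := by
  classical
  intro C
  have hp := fun w : Fin 2 ⊕ Fin t => pull h C (fun v => (v, w))
    (fun u v e => congrArg Prod.fst e) fun u v h => by simpa using h
  choose a _ ha using fun x => hp (.inl x) (fun _ => univ) (by simp)
  choose A hA1 hA using fun y v =>
    free C (v, .inr y) univ (fun x : Fin 2 => ((v, .inl x), a x v)) (by simp)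
  choose b hb1 hb using fun y => hp (.inr y) (A y) fun v => le_trans (by simp) (hA1 y v)
  refine ⟨fun z => Sum.elim (fun x => a x z.1) (fun y => b y z.1) z.2, ?_⟩
  rintro ⟨u, w⟩ ⟨v, w'⟩ hne hadj
  have he := C.edges _ _ _ _ hne hadj
  rcases w with x | y <;> rcases w' with x' | y' <;> simp at he
  · obtain ⟨he, rfl⟩ := he
    exact ha x u v he.ne hadj
  · subst he
    exact hA _ _ _ (hb1 y' u) x (mem_univ _) hadj
  · subst he
    exact hA _ _ _ (hb1 y u) x' (mem_univ _) hadj.symm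
  · obtain ⟨he, rfl⟩ := he
    exact hb y u v he.ne hadj

def M {n : ℕ} (p q : Fin (n + 2)) (x : Fin 2) (i j : Fin (n + 2)) : Prop :=
  (x = 0 ∧ i = p ∧ j.1 = n) ∨ (x = 1 ∧ i = q ∧ j.1 = n + 1) ∨
    (p ≠ q ∧ ((x = 0 ∧ i = q ∧ j.1 = n + 1) ∨ (x = 1 ∧ i = p ∧ j.1 = n)))

omit [Fintype V] in
lemma lower {n t : ℕ} (C : Cover G (n + 2)) (D : Cover G n) (hD : ¬ (good D).Nonempty)
    (g : Fin t → (V → Fin (n + 2)) × (V → Fin (n + 2)))
    (hg : ∀ c ∈ good C, ∀ d ∈ good C, ∃ y, g y = (c, d) ∨ g y = (d, c)) :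
    ¬ Col (G □ completeBipartiteGraph (Fin 2) (Fin t)) (n + 2) := by
  intro h
  let R : V × (Fin 2 ⊕ Fin t) → Fin (n + 2) → V × (Fin 2 ⊕ Fin t) → Fin (n + 2) → Prop :=
    fun z i z' j => match z.2, z'.2 with
      | .inl x, .inl x' => x = x' ∧ z.1 ≠ z'.1 ∧ C.H.Adj (z.1, i) (z'.1, j)
      | .inr y, .inr y' => y = y' ∧ z.1 ≠ z'.1 ∧ ∃ i' j', i = Fin.castAdd 2 i' ∧
          j = Fin.castAdd 2 j' ∧ D.H.Adj (z.1, i') (z'.1, j')
      | .inl x, .inr y => z.1 = z'.1 ∧ M ((g y).1 z.1) ((g y).2 z.1) x i j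
      | .inr y, .inl x => z.1 = z'.1 ∧ M ((g y).1 z.1) ((g y).2 z.1) x j i
  refine (h (mk R ?_ ?_ ?_)).elim fun c hc => ?_
  rotate_right
  · have hc' : ∀ z z', z ≠ z' → ¬ R z (c z) z' (c z') := fun z z' h e => hc z z' h (Or.inr e)
    have hx : ∀ x, (fun v => c (v, .inl x)) ∈ good C := fun x u v huv e =>
      hc' (u, .inl x) (v, .inl x) (by simpa using huv) ⟨rfl, huv, e⟩
    obtain ⟨y, hy⟩ := hg _ (hx 0) _ (hx 1)
    have hlt : ∀ v, (c (v, .inr y)).1 < n := fun v => by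
      have a0 : ¬ M ((g y).1 v) ((g y).2 v) 0 (c (v, .inl 0)) (c (v, .inr y)) := fun e =>
        hc' (v, .inl 0) (v, .inr y) (by simp) ⟨rfl, e⟩
      have a1 : ¬ M ((g y).1 v) ((g y).2 v) 1 (c (v, .inl 1)) (c (v, .inr y)) := fun e =>
        hc' (v, .inl 1) (v, .inr y) (by simp) ⟨rfl, e⟩
      have := (c (v, .inr y)).2
      rcases hy with hy | hy <;> simp only [hy, M] at a0 a1 <;> grind
    refine hD ⟨fun v => ⟨_, hlt v⟩, fun u v huv e => ?_⟩
    exact hc' (u, .inr y) (v, .inr y) (by simpa using huv) ⟨rfl, huv, _, _, rfl, rfl, e⟩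
  · rintro ⟨u, x | y⟩ i ⟨v, x' | y'⟩ j
    · exact fun ⟨a, b, c⟩ => ⟨a.symm, b.symm, c.symm⟩
    · rintro ⟨rfl : u = v, b⟩; exact ⟨rfl, b⟩
    · rintro ⟨rfl : u = v, b⟩; exact ⟨rfl, b⟩
    · exact fun ⟨a, b, i', j', c, d, e⟩ => ⟨a.symm, b.symm, j', i', d, c, e.symm⟩
  · rintro ⟨u, x | y⟩ i ⟨v, x' | y'⟩ j j'
    · exact fun ⟨_, b, c⟩ ⟨_, _, d⟩ => C.matching _ _ _ _ _ b c d
    · rintro ⟨-, a⟩ ⟨-, b⟩
      simp only [M] at a b
      grind
    · rintro ⟨-, a⟩ ⟨-, b⟩
      simp only [M] at a b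
      grind
    · rintro ⟨-, b, i1, j1, rfl, rfl, e⟩ ⟨-, -, i2, j2, c, rfl, e'⟩
      obtain rfl := Fin.castAdd_injective _ _ c
      rw [D.matching _ _ _ _ _ b e e']
  · rintro ⟨u, x | y⟩ i ⟨v, x' | y'⟩ j
    · rintro ⟨rfl : x = x', b, c⟩; simpa using C.edges _ _ _ _ b c
    · rintro ⟨rfl : u = v, -⟩; simp
    · rintro ⟨rfl : u = v, -⟩; simp
    · rintro ⟨rfl : y = y', b, _, _, _, _, c⟩; simpa using D.edges _ _ _ _ b c

end

theorem result (V : Type) [Fintype V] [Nonempty V] (G : SimpleGraph V) :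
    chiDP (G □ completeBipartiteGraph (Fin 2) (Fin (f G 2))) = chiDP G + 2 ∧
      f G 2 < PDP G (chiDP G + 2 - 1) ^ 2 := by
  classical
  have h1 : Col G (chiDP G) := by
    rw [chi_eq]; exact Nat.sInf_mem (s := {m | Col G m}) ⟨_, col_card⟩
  have hb : ∀ m, Cover G m := fun m => mk (fun _ _ _ _ => False) (by simp) (by simp) (by simp)
  obtain ⟨n, hn⟩ : ∃ n, chiDP G = n + 1 := Nat.exists_eq_succ_of_ne_zero fun e => by
    rw [e] at h1
    obtain ⟨c, -⟩ := h1 (hb 0)
    exact (c (Classical.arbitrary V)).elim0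
  have h2 : ¬ Col G n := fun h => by
    have := Nat.sInf_le (s := {m | Col G m}) h
    rw [← chi_eq] at this; omega
  obtain ⟨D, hD⟩ := not_forall.mp h2
  rw [hn] at h1
  obtain ⟨C, hC⟩ : ∃ C : Cover G (n + 2), (colorings C).ncard = PDP G (n + 2) :=
    Nat.sInf_mem (s := {p | ∃ C : Cover G (n + 2), (colorings C).ncard = p}) ⟨_, hb _, rfl⟩
  obtain ⟨a, ha⟩ := h1.mono (Nat.le_succ _) C
  obtain ⟨b, hb1, hb2⟩ := pull h1 C id Function.injective_id (fun _ _ h => h)
    (fun v => univ.erase (a v)) (by simp)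
  have hab : b ≠ a := fun e => by simpa [e] using hb1 (Classical.arbitrary V)
  let s := ((good C).toFinset ×ˢ (good C).toFinset).erase (b, a)
  have hm : (b, a) ∈ (good C).toFinset ×ˢ (good C).toFinset := by
    simp only [mem_product, Set.mem_toFinset]; exact ⟨hb2, ha⟩
  have hs : s.card < PDP G (n + 2) ^ 2 := by
    rw [← hC, col_ncard, Set.ncard_eq_toFinset_card', sq, ← card_product]
    exact card_erase_lt_of_mem hm
  have h3 := lower C D hD (fun y => (s.equivFin.symm y).1) fun c hc d hd => by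
    by_cases e : (c, d) = (b, a)
    · refine ⟨s.equivFin ⟨(d, c), mem_erase.mpr ⟨fun e' => hab ?_, by simp [hc, hd]⟩⟩, by simp⟩
      exact (Prod.mk.inj e').1.symm.trans (Prod.mk.inj e).2
    · exact ⟨s.equivFin ⟨(c, d), mem_erase.mpr ⟨e, by simp [hc, hd]⟩⟩, by simp⟩
  have h4 : chiDP (G □ completeBipartiteGraph (Fin 2) (Fin s.card)) = chiDP G + 2 := by
    rw [hn, chi_eq]
    refine le_antisymm (Nat.sInf_le (upper _ h1)) ?_
    by_contra h
    exact h3 ((Nat.sInf_mem (s := {m | Col _ m}) ⟨_, upper _ h1⟩).mono (by omega))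
  refine ⟨Nat.sInf_mem (s := {t | chiDP (G □ completeBipartiteGraph (Fin 2) (Fin t)) =
    chiDP G + 2}) ⟨_, h4⟩, lt_of_le_of_lt (Nat.sInf_le h4) ?_⟩
  rw [hn]; exact hs

end Pool.Agent.Results.MP_924496_co.Never
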